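import Pool.Agent.X216.MZ.Core

namespace Pool.Agent.X216.MZ

open Complex

/-- A monic real quintic `(w-r) q(w)` with `q > 0` on the reals and
`(4 c₂ - c₃²)² < 64 c₀` does not give monotonic zeros. -/
theorem not_mono_of {c0 c1 c2 c3 r : ℝ}
    (hpos : ∀ w : ℝ, 0 < w ^ 4 + c3 * w ^ 3 + c2 * w ^ 2 + c1 * w + c0)
    (hbad : (4 * c2 - c3 ^ 2) ^ 2 < 64 * c0) :
    ¬ Mono (fun z => (z ^ 2 - r) *
      ((z ^ 2) ^ 4 + c3 * (z ^ 2) ^ 3 + c2 * (z ^ 2) ^ 2 + c1 * (z ^ 2) + c0)) := by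
  -- a complex root of the quartic
  obtain ⟨w0, hw0⟩ : ∃ w : ℂ, w ^ 4 + c3 * w ^ 3 + c2 * w ^ 2 + c1 * w + c0 = 0 := by
    have hdeg : (Polynomial.X ^ 4 + Polynomial.C (c3 : ℂ) * Polynomial.X ^ 3 +
        Polynomial.C (c2 : ℂ) * Polynomial.X ^ 2 + Polynomial.C (c1 : ℂ) * Polynomial.X +
        Polynomial.C (c0 : ℂ)).degree = 4 := by compute_degree!
    obtain ⟨z, hz⟩ := Complex.exists_root (by rw [hdeg]; norm_num)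
    refine ⟨z, ?_⟩
    rw [Polynomial.IsRoot.def] at hz
    simpa using hz
  have hreal : ∀ w : ℂ, w ^ 4 + c3 * w ^ 3 + c2 * w ^ 2 + c1 * w + c0 = 0 → w.im ≠ 0 := by
    intro w hw him
    have : w = ((w.re : ℝ) : ℂ) := Complex.ext rfl (by simp [him])
    rw [this] at hw
    have h2 : ((w.re ^ 4 + c3 * w.re ^ 3 + c2 * w.re ^ 2 + c1 * w.re + c0 : ℝ) : ℂ) = 0 := by
      push_cast; exact hw
    have h3 : w.re ^ 4 + c3 * w.re ^ 3 + c2 * w.re ^ 2 + c1 * w.re + c0 = 0 := by exact_mod_cast h2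
    have := hpos w.re
    linarith
  obtain ⟨w1, hw1, him1⟩ : ∃ w : ℂ, w ^ 4 + c3 * w ^ 3 + c2 * w ^ 2 + c1 * w + c0 = 0 ∧
      0 < w.im := by
    rcases lt_or_gt_of_ne (hreal w0 hw0) with h | h
    · refine ⟨(starRingEnd ℂ) w0, ?_, by simpa using h⟩
      have := congrArg (starRingEnd ℂ) hw0
      simpa using this
    · exact ⟨w0, hw0, h⟩
  obtain ⟨A, hA⟩ : ∃ A : ℝ, A = w1.re := ⟨_, rfl⟩
  obtain ⟨p, hp⟩ : ∃ p : ℝ, p = normSq w1 := ⟨_, rfl⟩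
  have hq1 : w1 ^ 2 - 2 * (A : ℂ) * w1 + (p : ℂ) = 0 := by rw [hA, hp]; exact quad_self w1
  obtain ⟨B, hB⟩ : ∃ B : ℝ, B = -(c3 + 2 * A) / 2 := ⟨_, rfl⟩
  obtain ⟨g, hg⟩ : ∃ g : ℝ, g = c2 - p - 4 * A * B := ⟨_, rfl⟩
  have hc3 : c3 = -(2 * A + 2 * B) := by rw [hB]; ring
  have hc2 : c2 = 4 * A * B + p + g := by rw [hg]; ring
  have hdiv : ∀ w : ℂ, w ^ 4 + c3 * w ^ 3 + c2 * w ^ 2 + c1 * w + c0 =
      (w ^ 2 - 2 * A * w + p) * (w ^ 2 - 2 * B * w + g) +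
      (((c1 + 2 * A * g + 2 * B * p : ℝ) : ℂ) * w + ((c0 - p * g : ℝ) : ℂ)) := by
    intro w
    rw [hc3, hc2]
    push_cast
    ring
  have h1 := hdiv w1
  rw [hw1, hq1, zero_mul, zero_add] at h1
  obtain ⟨z1, z0⟩ := lin_zero him1 h1.symm
  have hc0 : c0 = p * g := by linarith
  have hc1 : c1 = -(2 * A * g + 2 * B * p) := by linarith
  have hpA : A ^ 2 < p := by
    rw [hp, hA, normSq_apply]
    nlinarith
  have hgB : B ^ 2 < g := by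
    have := hpos B
    have e : B ^ 4 + c3 * B ^ 3 + c2 * B ^ 2 + c1 * B + c0 =
        ((B - A) ^ 2 + (p - A ^ 2)) * (g - B ^ 2) := by
      rw [hc3, hc2, hc1, hc0]; ring
    rw [e] at this
    have h2 : 0 < (B - A) ^ 2 + (p - A ^ 2) := by
      have := sq_nonneg (B - A); linarith
    have := (pos_iff_pos_of_mul_pos this).1 h2
    linarith
  -- square roots
  have hp0 : 0 < p := lt_of_le_of_lt (sq_nonneg _) hpA
  have hg0 : 0 < g := lt_of_le_of_lt (sq_nonneg _) hgB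
  obtain ⟨ρ, hρ⟩ : ∃ ρ : ℝ, ρ = Real.sqrt p := ⟨_, rfl⟩
  obtain ⟨σ, hσ⟩ : ∃ σ : ℝ, σ = Real.sqrt g := ⟨_, rfl⟩
  have hρ0 : 0 < ρ := by rw [hρ]; exact Real.sqrt_pos.2 hp0
  have hσ0 : 0 < σ := by rw [hσ]; exact Real.sqrt_pos.2 hg0
  have hρ2 : ρ ^ 2 = p := by rw [hρ]; exact Real.sq_sqrt hp0.le
  have hσ2 : σ ^ 2 = g := by rw [hσ]; exact Real.sq_sqrt hg0.le
  have hAρ : |A| < ρ := abs_lt_of_sq_lt_sq (by rw [hρ2]; exact hpA) hρ0.le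
  have hBσ : |B| < σ := abs_lt_of_sq_lt_sq (by rw [hσ2]; exact hgB) hσ0.le
  rw [abs_lt] at hAρ hBσ
  -- the two zeros
  have hzero : ∀ (A ρ : ℝ), -ρ < A → A < ρ → ∃ z : ℂ, 0 < z.re ∧ 0 < z.im ∧
      z.re ^ 2 = (ρ + A) / 2 ∧ z.im ^ 2 = (ρ - A) / 2 ∧
      (z ^ 2) ^ 2 - 2 * A * z ^ 2 + ((ρ ^ 2 : ℝ) : ℂ) = 0 := by
    intro A ρ h1 h2
    have a1 : 0 < (ρ + A) / 2 := by linarith
    have a2 : 0 < (ρ - A) / 2 := by linarith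
    refine ⟨⟨Real.sqrt ((ρ + A) / 2), Real.sqrt ((ρ - A) / 2)⟩, Real.sqrt_pos.2 a1,
      Real.sqrt_pos.2 a2, Real.sq_sqrt a1.le, Real.sq_sqrt a2.le, ?_⟩
    set z : ℂ := ⟨Real.sqrt ((ρ + A) / 2), Real.sqrt ((ρ - A) / 2)⟩ with hz
    have r1 : z.re ^ 2 = (ρ + A) / 2 := Real.sq_sqrt a1.le
    have r2 : z.im ^ 2 = (ρ - A) / 2 := Real.sq_sqrt a2.le
    have hA' : A = (z ^ 2).re := by
      have : (z ^ 2).re = z.re ^ 2 - z.im ^ 2 := by simp [sq]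
      rw [this, r1, r2]; ring
    have hρ' : ρ ^ 2 = normSq (z ^ 2) := by
      rw [map_pow, normSq_apply, ← sq, ← sq, r1, r2]; ring
    have hfin : (z ^ 2) ^ 2 - 2 * (((z ^ 2).re : ℝ) : ℂ) * z ^ 2 + ((normSq (z ^ 2) : ℝ) : ℂ) = 0 :=
      quad_self (z ^ 2)
    rw [hA', hρ']
    exact hfin
  obtain ⟨α, α1, α2, α3, α4, α5⟩ := hzero A ρ hAρ.1 hAρ.2
  obtain ⟨β, β1, β2, β3, β4, β5⟩ := hzero B σ hBσ.1 hBσ.2
  rw [hρ2] at α5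
  rw [hσ2] at β5
  intro hM
  have hFα : (α ^ 2 - r) * ((α ^ 2) ^ 4 + c3 * (α ^ 2) ^ 3 + c2 * (α ^ 2) ^ 2 + c1 * (α ^ 2) + c0)
      = 0 := by
    rw [hdiv, α5, z1, z0]
    simp
  have hFβ : (β ^ 2 - r) * ((β ^ 2) ^ 4 + c3 * (β ^ 2) ^ 3 + c2 * (β ^ 2) ^ 2 + c1 * (β ^ 2) + c0)
      = 0 := by
    rw [hdiv, β5, z1, z0]
    simp
  -- the key inequality
  have hkey : ((ρ + A) / 2 - (σ + B) / 2) * ((ρ - A) / 2 - (σ - B) / 2) < 0 := by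
    have e1 : 64 * c0 = (8 * (ρ * σ)) ^ 2 := by rw [hc0, ← hρ2, ← hσ2]; ring
    rw [e1] at hbad
    have h5 : 4 * c2 - c3 ^ 2 < 8 * (ρ * σ) := by
      apply lt_of_pow_lt_pow_left₀ 2 (by positivity)
      exact hbad
    rw [hc2, hc3, ← hρ2, ← hσ2] at h5
    nlinarith
  have hne : α ≠ β := by
    intro h
    rw [← α3, ← α4, ← β3, ← β4, h] at hkey
    simp at hkey
  have m1 := hM α ⟨α1.le, α2.le⟩ β ⟨β1.le, β2.le⟩ hFα hFβ hne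
  have m2 := hM β ⟨β1.le, β2.le⟩ α ⟨α1.le, α2.le⟩ hFβ hFα hne.symm
  rw [← α3, ← α4, ← β3, ← β4] at hkey
  rcases lt_or_gt_of_ne m1.1 with h | h
  · have h6 := m1.2 h
    have a1 : α.re ^ 2 < β.re ^ 2 := pow_lt_pow_left₀ h α1.le (by norm_num)
    have a2 : α.im ^ 2 ≤ β.im ^ 2 := pow_le_pow_left₀ α2.le h6 2
    nlinarith
  · have h6 := m2.2 h
    have a1 : β.re ^ 2 < α.re ^ 2 := pow_lt_pow_left₀ h β1.le (by norm_num)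
    have a2 : β.im ^ 2 ≤ α.im ^ 2 := pow_le_pow_left₀ β2.le h6 2
    nlinarith

/-- the bad combination `(5 f₁ + 2 f₂ + f₃)/8` -/
theorem bad_comb : ¬ Mono (fun z => P (-31 / 8) (212 / 8) (-71 / 8) 10 (7 / 8) (z ^ 2)) := by
  have hcont : Continuous (Pr (-31 / 8) (212 / 8) (-71 / 8) 10 (7 / 8)) := by
    unfold Pr; fun_prop
  obtain ⟨r, ⟨hr1, hr2⟩, hr⟩ : ∃ r ∈ Set.Icc (15 / 100 : ℝ) (155 / 1000),
      Pr (-31 / 8) (212 / 8) (-71 / 8) 10 (7 / 8) r = 0 := by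
    have := intermediate_value_Icc (by norm_num : (15 / 100 : ℝ) ≤ 155 / 1000) hcont.continuousOn
    exact this ⟨by unfold Pr; norm_num, by unfold Pr; norm_num⟩
  obtain ⟨c3, hc3⟩ : ∃ c3 : ℝ, c3 = 7 / 8 + r := ⟨_, rfl⟩
  obtain ⟨c2, hc2⟩ : ∃ c2 : ℝ, c2 = 10 + r * c3 := ⟨_, rfl⟩
  obtain ⟨c1, hc1⟩ : ∃ c1 : ℝ, c1 = -71 / 8 + r * c2 := ⟨_, rfl⟩
  obtain ⟨c0, hc0⟩ : ∃ c0 : ℝ, c0 = 212 / 8 + r * c1 := ⟨_, rfl⟩
  have hrc0 : r * c0 = 31 / 8 := by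
    unfold Pr at hr
    rw [hc0, hc1, hc2, hc3]
    linear_combination hr
  have b3 : 1 ≤ c3 ∧ c3 ≤ 103 / 100 := by constructor <;> linarith
  have b3' : 1025 / 1000 ≤ c3 := by linarith
  have b2 : 10 ≤ c2 ∧ c2 ≤ 1016 / 100 := by
    constructor <;> nlinarith
  have b1 : -8 ≤ c1 ∧ c1 ≤ -7 := by
    constructor <;> nlinarith
  have b0 : 25 ≤ c0 := by
    by_contra hc
    push Not at hc
    nlinarith
  have hfac : (fun z : ℂ => P (-31 / 8) (212 / 8) (-71 / 8) 10 (7 / 8) (z ^ 2)) =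
      (fun z : ℂ => (z ^ 2 - r) *
      ((z ^ 2) ^ 4 + c3 * (z ^ 2) ^ 3 + c2 * (z ^ 2) ^ 2 + c1 * (z ^ 2) + c0)) := by
    funext z
    unfold P
    have e0 : ((r : ℂ)) * c0 = 31 / 8 := by
      have h0 : ((r * c0 : ℝ) : ℂ) = ((31 / 8 : ℝ) : ℂ) := by rw [hrc0]
      push_cast at h0
      exact h0
    have e1 : (c0 : ℂ) = 212 / 8 + r * c1 := by rw [hc0]; push_cast; ring
    have e2 : (c1 : ℂ) = -71 / 8 + r * c2 := by rw [hc1]; push_cast; ring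
    have e3 : (c2 : ℂ) = 10 + r * c3 := by rw [hc2]; push_cast; ring
    have e4 : (c3 : ℂ) = 7 / 8 + r := by rw [hc3]; push_cast; ring
    push_cast
    linear_combination e0 - z ^ 2 * e1 - (z ^ 2) ^ 2 * e2 - (z ^ 2) ^ 3 * e3 - (z ^ 2) ^ 4 * e4
  rw [hfac]
  apply not_mono_of
  · intro w
    have e : w ^ 4 + c3 * w ^ 3 + c2 * w ^ 2 + c1 * w + c0 =
        (w ^ 2 + c3 / 2 * w) ^ 2 + ((c2 - c3 ^ 2 / 4) * w ^ 2 + c1 * w + c0) := by ring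
    rw [e]
    have h1 : 9 ≤ c2 - c3 ^ 2 / 4 := by nlinarith [b3.1, b3.2, b2.1]
    have h2 : 9 * w ^ 2 ≤ (c2 - c3 ^ 2 / 4) * w ^ 2 :=
      mul_le_mul_of_nonneg_right h1 (sq_nonneg w)
    have h3 : c1 ^ 2 ≤ 64 := by nlinarith [b1.1, b1.2]
    have h4 : 0 < 9 * w ^ 2 + c1 * w + c0 := by
      have : 9 * w ^ 2 + c1 * w + c0 = 9 * (w + c1 / 18) ^ 2 + (c0 - c1 ^ 2 / 36) := by ring
      rw [this]
      have := sq_nonneg (w + c1 / 18)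
      linarith
    have := sq_nonneg (w ^ 2 + c3 / 2 * w)
    linarith
  · have h1 : 4 * c2 - c3 ^ 2 ≤ 396 / 10 := by
      nlinarith [b2.2, b3']
    have h2 : 0 ≤ 4 * c2 - c3 ^ 2 := by nlinarith [b2.1, b3.1, b3.2]
    have h3 : (4 * c2 - c3 ^ 2) ^ 2 ≤ (396 / 10) ^ 2 := pow_le_pow_left₀ h2 h1 2
    nlinarith

end Pool.Agent.X216.MZ
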