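import Mathlib

namespace Pool.Agent.X216.MZ

open Complex

/-- the monic quintic with real coefficients -/
noncomputable def P (e0 e1 e2 e3 e4 : ℝ) (w : ℂ) : ℂ :=
  w ^ 5 + e4 * w ^ 4 + e3 * w ^ 3 + e2 * w ^ 2 + e1 * w + e0

/-- the same over the reals -/
def Pr (e0 e1 e2 e3 e4 : ℝ) (w : ℝ) : ℝ :=
  w ^ 5 + e4 * w ^ 4 + e3 * w ^ 3 + e2 * w ^ 2 + e1 * w + e0

lemma P_ofReal (e0 e1 e2 e3 e4 r : ℝ) : P e0 e1 e2 e3 e4 (r : ℂ) = (Pr e0 e1 e2 e3 e4 r : ℝ) := by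
  unfold P Pr; push_cast; ring

lemma quad_self (w : ℂ) : w ^ 2 - 2 * (w.re : ℂ) * w + (normSq w : ℂ) = 0 := by
  apply Complex.ext
  · simp [sq, normSq_apply]; ring
  · simp [sq, normSq_apply]; ring

lemma quad_ne {w1 w2 : ℂ} (h1 : 0 < w1.im) (h2 : 0 < w2.im) (hne : w1 ≠ w2) :
    w2 ^ 2 - 2 * (w1.re : ℂ) * w2 + (normSq w1 : ℂ) ≠ 0 := by
  intro h
  have e : w2 ^ 2 - 2 * (w1.re : ℂ) * w2 + (normSq w1 : ℂ) =
      (w2 - w1) * (w2 - (starRingEnd ℂ) w1) := by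
    apply Complex.ext
    · simp [sq, normSq_apply]; ring
    · simp [sq, normSq_apply]; ring
  rw [e] at h
  rcases mul_eq_zero.1 h with h | h
  · exact hne (sub_eq_zero.1 h).symm
  · have := congrArg Complex.im h
    simp at this
    linarith

lemma lin_zero {a b : ℝ} {w : ℂ} (hw : 0 < w.im) (h : (a : ℂ) * w + b = 0) : a = 0 ∧ b = 0 := by
  have h1 := congrArg Complex.im h
  have h2 := congrArg Complex.re h
  simp at h1 h2
  rcases h1 with h1 | h1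
  · subst h1
    simp at h2
    exact ⟨rfl, h2⟩
  · exact absurd h1 hw.ne'

lemma quintic_factor {e0 e1 e2 e3 e4 : ℝ} {w1 w2 : ℂ} (h1 : 0 < w1.im) (h2 : 0 < w2.im)
    (hne : w1 ≠ w2) (hP1 : P e0 e1 e2 e3 e4 w1 = 0) (hP2 : P e0 e1 e2 e3 e4 w2 = 0)
    {A B p q r : ℝ} (hA : A = w1.re) (hB : B = w2.re) (hp : p = normSq w1) (hq : q = normSq w2)
    (hr : r = -(e4 + 2 * A + 2 * B)) :
    e3 = 4 * A * B + p + q + r * (2 * A + 2 * B) ∧
    e2 = -(2 * A * q + 2 * B * p) - r * (4 * A * B + p + q) ∧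
    e1 = p * q + r * (2 * A * q + 2 * B * p) ∧ e0 = -(r * p * q) := by
  obtain ⟨d3, hd3⟩ : ∃ d3 : ℝ, d3 = e3 - (4 * A * B + p + q + r * (2 * A + 2 * B)) := ⟨_, rfl⟩
  obtain ⟨d2, hd2⟩ : ∃ d2 : ℝ, d2 = e2 - (-(2 * A * q + 2 * B * p) - r * (4 * A * B + p + q)) :=
    ⟨_, rfl⟩
  obtain ⟨d1, hd1⟩ : ∃ d1 : ℝ, d1 = e1 - (p * q + r * (2 * A * q + 2 * B * p)) := ⟨_, rfl⟩
  obtain ⟨d0, hd0⟩ : ∃ d0 : ℝ, d0 = e0 - (-(r * p * q)) := ⟨_, rfl⟩
  have hid : ∀ w : ℂ, P e0 e1 e2 e3 e4 w = (w - r) * (w ^ 2 - 2 * A * w + p) *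
      (w ^ 2 - 2 * B * w + q) + (d3 * w ^ 3 + d2 * w ^ 2 + d1 * w + d0) := by
    intro w
    unfold P
    rw [hd3, hd2, hd1, hd0]
    have he4 : e4 = -(r + 2 * A + 2 * B) := by rw [hr]; ring
    rw [he4]
    push_cast
    ring
  have q1 : w1 ^ 2 - 2 * (A : ℂ) * w1 + (p : ℂ) = 0 := by rw [hA, hp]; exact quad_self w1
  have q2 : w2 ^ 2 - 2 * (B : ℂ) * w2 + (q : ℂ) = 0 := by rw [hB, hq]; exact quad_self w2
  have q12 : w2 ^ 2 - 2 * (A : ℂ) * w2 + (p : ℂ) ≠ 0 := by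
    rw [hA, hp]; exact quad_ne h1 h2 hne
  have c1 : (d3 : ℂ) * w1 ^ 3 + d2 * w1 ^ 2 + d1 * w1 + d0 = 0 := by
    have := hid w1
    rw [hP1, q1] at this
    linear_combination -this
  have c2 : (d3 : ℂ) * w2 ^ 3 + d2 * w2 ^ 2 + d1 * w2 + d0 = 0 := by
    have := hid w2
    rw [hP2, q2] at this
    linear_combination -this
  -- divide
  have hdiv : ∀ w : ℂ, (d3 : ℂ) * w ^ 3 + d2 * w ^ 2 + d1 * w + d0 =
      (d3 * w + ((d2 + 2 * A * d3 : ℝ) : ℂ)) * (w ^ 2 - 2 * A * w + p) +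
      (((d1 - p * d3 + 2 * A * (d2 + 2 * A * d3) : ℝ) : ℂ) * w +
        ((d0 - p * (d2 + 2 * A * d3) : ℝ) : ℂ)) := by
    intro w; push_cast; ring
  rw [hdiv, q1, mul_zero, zero_add] at c1
  obtain ⟨z1, z2⟩ := lin_zero h1 c1
  rw [hdiv, z1, z2] at c2
  simp only [Complex.ofReal_zero, zero_mul, add_zero] at c2
  rcases mul_eq_zero.1 c2 with c2 | c2
  · obtain ⟨y1, y2⟩ := lin_zero h2 c2
    have y3 : d2 = 0 := by rw [y1] at y2; linarith
    have y4 : d1 = 0 := by rw [y1, y3] at z1; linarith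
    have y5 : d0 = 0 := by rw [y1, y3] at z2; linarith
    refine ⟨by linarith, by linarith, by linarith, by linarith⟩
  · exact absurd c2 q12

/-- closed first quadrant -/
def Quad : Set ℂ := {z | 0 ≤ z.re ∧ 0 ≤ z.im}

/-- the zeros in the closed first quadrant are monotonic -/
def Mono (F : ℂ → ℂ) : Prop :=
  ∀ α ∈ Quad, ∀ β ∈ Quad, F α = 0 → F β = 0 → α ≠ β →
    α.re ≠ β.re ∧ (α.re < β.re → α.im ≤ β.im)

/-- the imaginary part of `P(z²)` divided by the imaginary part of `z²`, with `X = (Re z)²`,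
`Y = (Im z)²` -/
def H (e1 e2 e3 e4 X Y : ℝ) : ℝ :=
  e1 + 2 * (X - Y) * e2 + (3 * (X - Y) ^ 2 - 4 * X * Y) * e3 +
    (4 * (X - Y) ^ 3 - 16 * (X - Y) * X * Y) * e4 +
    (5 * (X - Y) ^ 4 - 40 * (X - Y) ^ 2 * X * Y + 16 * X ^ 2 * Y ^ 2)

lemma im_P (e0 e1 e2 e3 e4 : ℝ) (z : ℂ) :
    (P e0 e1 e2 e3 e4 (z ^ 2)).im = 2 * z.re * z.im * H e1 e2 e3 e4 (z.re ^ 2) (z.im ^ 2) := by
  have hz : z ^ 2 = ((z.re ^ 2 - z.im ^ 2 : ℝ) : ℂ) + ((2 * z.re * z.im : ℝ) : ℂ) * I := by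
    apply Complex.ext
    · simp [sq]
    · simp [sq]; ring
  rw [hz]
  set u : ℝ := z.re ^ 2 - z.im ^ 2 with hu
  set v : ℝ := 2 * z.re * z.im with hv
  have hI2 : I ^ 2 = -1 := I_sq
  have e : P e0 e1 e2 e3 e4 ((u : ℂ) + v * I) =
      ((u ^ 5 - 10 * u ^ 3 * v ^ 2 + 5 * u * v ^ 4 + e4 * (u ^ 4 - 6 * u ^ 2 * v ^ 2 + v ^ 4)
        + e3 * (u ^ 3 - 3 * u * v ^ 2) + e2 * (u ^ 2 - v ^ 2) + e1 * u + e0 : ℝ) : ℂ) +
      ((v * (5 * u ^ 4 - 10 * u ^ 2 * v ^ 2 + v ^ 4 + e4 * (4 * u ^ 3 - 4 * u * v ^ 2)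
        + e3 * (3 * u ^ 2 - v ^ 2) + 2 * e2 * u + e1) : ℝ) : ℂ) * I := by
    unfold P
    have hI3 : I ^ 3 = -I := by rw [pow_succ, hI2]; ring
    have hI4 : I ^ 4 = 1 := by rw [show (4 : ℕ) = 2 * 2 by norm_num, pow_mul, hI2]; norm_num
    have hI5 : I ^ 5 = I := by rw [pow_succ, hI4]; ring
    push_cast
    ring_nf
    rw [hI2, hI3, hI4, hI5]
    ring
  rw [e]
  simp only [Complex.add_im, Complex.ofReal_im, Complex.im_ofReal_mul, Complex.I_im, mul_one,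
    zero_add]
  have hv2 : v ^ 2 = 4 * z.re ^ 2 * z.im ^ 2 := by rw [hv]; ring
  have hv4 : v ^ 4 = 16 * (z.re ^ 2) ^ 2 * (z.im ^ 2) ^ 2 := by rw [hv]; ring
  rw [hv2, hv4]
  unfold H
  rw [hu, hv]
  ring

/-- The criterion. -/
theorem mono_of {e0 e1 e2 e3 e4 R : ℝ}
    (h1 : ∀ w : ℝ, w < 0 → Pr e0 e1 e2 e3 e4 w < 0)
    (h2 : ∀ w : ℝ, R < w → 0 < Pr e0 e1 e2 e3 e4 w)
    (h3 : ∀ X Y : ℝ, 0 ≤ X → X ≤ R → 0 ≤ Y → 0 < H e1 e2 e3 e4 X Y)
    (h4 : ∀ r : ℝ, 0 ≤ r → r ≤ R → Pr e0 e1 e2 e3 e4 r = 0 →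
      0 < 4 * (e3 + r * (e4 + r)) - (e4 + r) ^ 2 ∧
      64 * (e1 + r * (e2 + r * (e3 + r * (e4 + r)))) <
        (4 * (e3 + r * (e4 + r)) - (e4 + r) ^ 2) ^ 2) :
    Mono (fun z => P e0 e1 e2 e3 e4 (z ^ 2)) := by
  -- description of one zero
  have hone : ∀ z ∈ Quad, P e0 e1 e2 e3 e4 (z ^ 2) = 0 →
      (z.im = 0 ∧ z.re ^ 2 ≤ R) ∨ (0 < z.im ∧ 0 < z.re ∧ R < z.re ^ 2) := by
    rintro z ⟨hx, hy⟩ hz
    rcases eq_or_lt_of_le hy with hy0 | hy0
    · left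
      refine ⟨hy0.symm, ?_⟩
      have hzr : z ^ 2 = ((z.re ^ 2 : ℝ) : ℂ) := by
        apply Complex.ext
        · simp [sq, ← hy0]
        · simp [sq, ← hy0]
      rw [hzr, P_ofReal] at hz
      have hz' : Pr e0 e1 e2 e3 e4 (z.re ^ 2) = 0 := by exact_mod_cast hz
      by_contra hc
      push Not at hc
      have := h2 _ hc
      linarith
    · right
      rcases eq_or_lt_of_le hx with hx0 | hx0
      · exfalso
        have hzr : z ^ 2 = ((-(z.im ^ 2) : ℝ) : ℂ) := by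
          apply Complex.ext
          · simp [sq, ← hx0]
          · simp [sq, ← hx0]
        rw [hzr, P_ofReal] at hz
        have hz' : Pr e0 e1 e2 e3 e4 (-(z.im ^ 2)) = 0 := by exact_mod_cast hz
        have := h1 (-(z.im ^ 2)) (by have := pow_pos hy0 2; linarith)
        linarith
      · refine ⟨hy0, hx0, ?_⟩
        by_contra hc
        push Not at hc
        have him := congrArg Complex.im hz
        rw [im_P] at him
        have := h3 (z.re ^ 2) (z.im ^ 2) (sq_nonneg _) hc (sq_nonneg _)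
        have hpos : 0 < 2 * z.re * z.im * H e1 e2 e3 e4 (z.re ^ 2) (z.im ^ 2) := by positivity
        rw [him] at hpos
        simp at hpos
  intro α hα β hβ hFα hFβ hne
  simp only [] at hFα hFβ
  rcases hone α hα hFα with ⟨ha1, ha2⟩ | ⟨ha1, ha2, ha3⟩
  · rcases hone β hβ hFβ with ⟨hb1, hb2⟩ | ⟨hb1, hb2, hb3⟩
    · -- both real
      refine ⟨?_, fun _ => by rw [ha1, hb1]⟩
      intro h
      exact hne (Complex.ext h (by rw [ha1, hb1]))
    · have hlt : α.re < β.re := by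
        have : α.re ^ 2 < β.re ^ 2 := lt_of_le_of_lt ha2 hb3
        exact lt_of_pow_lt_pow_left₀ 2 hb2.le this
      exact ⟨hlt.ne, fun _ => by rw [ha1]; exact hb1.le⟩
  · rcases hone β hβ hFβ with ⟨hb1, hb2⟩ | ⟨hb1, hb2, hb3⟩
    · have hlt : β.re < α.re := by
        have : β.re ^ 2 < α.re ^ 2 := lt_of_le_of_lt hb2 ha3
        exact lt_of_pow_lt_pow_left₀ 2 ha2.le this
      exact ⟨hlt.ne', fun h => absurd h (not_lt.2 hlt.le)⟩
    · -- both nonreal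
      have hw1 : 0 < (α ^ 2).im := by simp [sq]; nlinarith
      have hw2 : 0 < (β ^ 2).im := by simp [sq]; nlinarith
      have hwne : α ^ 2 ≠ β ^ 2 := by
        intro h
        have : (α - β) * (α + β) = 0 := by linear_combination h
        rcases mul_eq_zero.1 this with h' | h'
        · exact hne (sub_eq_zero.1 h')
        · have := congrArg Complex.im h'
          simp at this
          linarith
      obtain ⟨A, hA⟩ : ∃ A : ℝ, A = (α ^ 2).re := ⟨_, rfl⟩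
      obtain ⟨B, hB⟩ : ∃ B : ℝ, B = (β ^ 2).re := ⟨_, rfl⟩
      obtain ⟨p, hp⟩ : ∃ p : ℝ, p = normSq (α ^ 2) := ⟨_, rfl⟩
      obtain ⟨q, hq⟩ : ∃ q : ℝ, q = normSq (β ^ 2) := ⟨_, rfl⟩
      obtain ⟨r, hr⟩ : ∃ r : ℝ, r = -(e4 + 2 * A + 2 * B) := ⟨_, rfl⟩
      obtain ⟨f3, f2, f1, f0⟩ := quintic_factor hw1 hw2 hwne hFα hFβ hA hB hp hq hr
      have he4 : e4 = -(r + 2 * A + 2 * B) := by rw [hr]; ring
      have hroot : Pr e0 e1 e2 e3 e4 r = 0 := by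
        unfold Pr
        rw [f3, f2, f1, f0, he4]
        ring
      have hr0 : 0 ≤ r := by
        by_contra hc
        push Not at hc
        have := h1 r hc
        linarith
      have hrR : r ≤ R := by
        by_contra hc
        push Not at hc
        have := h2 r hc
        linarith
      obtain ⟨g1, g2⟩ := h4 r hr0 hrR hroot
      have c3 : e4 + r = -(2 * A + 2 * B) := by rw [he4]; ring
      have c2 : e3 + r * (e4 + r) = 4 * A * B + p + q := by rw [c3, f3]; ring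
      have c1 : e2 + r * (e3 + r * (e4 + r)) = -(2 * A * q + 2 * B * p) := by
        rw [c2, f2]; ring
      have c0 : e1 + r * (e2 + r * (e3 + r * (e4 + r))) = p * q := by rw [c1, f1]; ring
      rw [c0, c2, c3] at g2
      rw [c2, c3] at g1
      -- in terms of the squares
      obtain ⟨a, ha⟩ : ∃ a : ℝ, a = α.re ^ 2 := ⟨_, rfl⟩
      obtain ⟨a', ha'⟩ : ∃ a' : ℝ, a' = α.im ^ 2 := ⟨_, rfl⟩
      obtain ⟨b, hb⟩ : ∃ b : ℝ, b = β.re ^ 2 := ⟨_, rfl⟩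
      obtain ⟨b', hb'⟩ : ∃ b' : ℝ, b' = β.im ^ 2 := ⟨_, rfl⟩
      have hA' : A = a - a' := by rw [hA, ha, ha']; simp [sq]
      have hB' : B = b - b' := by rw [hB, hb, hb']; simp [sq]
      have hp' : p = (a + a') ^ 2 := by
        rw [hp, map_pow, normSq_apply, ha, ha']; ring
      have hq' : q = (b + b') ^ 2 := by
        rw [hq, map_pow, normSq_apply, hb, hb']; ring
      have ha0 : 0 < a := by rw [ha]; positivity
      have ha0' : 0 < a' := by rw [ha']; positivity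
      have hb0 : 0 < b := by rw [hb]; positivity
      have hb0' : 0 < b' := by rw [hb']; positivity
      have hkey : 0 < (a - b) * (a' - b') := by
        have e1 : 64 * (p * q) = (8 * ((a + a') * (b + b'))) ^ 2 := by rw [hp', hq']; ring
        rw [e1] at g2
        have h5 := lt_of_pow_lt_pow_left₀ 2 g1.le g2
        rw [hA', hB', hp', hq'] at h5
        nlinarith
      rcases lt_trichotomy a b with hab | hab | hab
      · have h6 : a' < b' := by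
          by_contra hc
          push Not at hc
          nlinarith
        have hre : α.re < β.re := by
          rw [ha, hb] at hab
          exact lt_of_pow_lt_pow_left₀ 2 hb2.le hab
        have him : α.im < β.im := by
          rw [ha', hb'] at h6
          exact lt_of_pow_lt_pow_left₀ 2 hb1.le h6
        exact ⟨hre.ne, fun _ => him.le⟩
      · rw [hab] at hkey
        simp at hkey
      · have hre : β.re < α.re := by
          rw [ha, hb] at hab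
          exact lt_of_pow_lt_pow_left₀ 2 ha2.le hab
        exact ⟨hre.ne', fun h => absurd h (not_lt.2 hre.le)⟩

end Pool.Agent.X216.MZ
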