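import Pool.Agent.X216.MZ.Cert

namespace Pool.Agent.X216.MZ

/-! ### positivity of the functions `H` -/

lemma H1_pos {X Y : ℝ} (h0 : 0 ≤ X) (h1 : X ≤ 21 / 50) (hY : 0 ≤ Y) : 0 < H 7 (-6) 6 0 X Y := by
  have e : H 7 (-6) 6 0 X Y = 5 * (Y ^ 2 - 6 * X * Y + 1 / 2) ^ 2 +
      ((13 - 54 * X ^ 2) * Y ^ 2 + (12 - 30 * X - 60 * X ^ 3) * Y +
        (23 / 4 - 12 * X + 18 * X ^ 2 + 5 * X ^ 4)) := by
    unfold H; ring
  rw [e]
  have q2 : 17 / 5 ≤ 13 - 54 * X ^ 2 := by nlinarith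
  have q1 : -(51 / 10) ≤ 12 - 30 * X - 60 * X ^ 3 := by
    have : X ^ 3 ≤ (21 / 50) ^ 3 := pow_le_pow_left₀ h0 h1 3
    nlinarith
  have q0 : 37 / 10 ≤ 23 / 4 - 12 * X + 18 * X ^ 2 + 5 * X ^ 4 := by
    have : 0 ≤ X ^ 4 := by positivity
    nlinarith [sq_nonneg (X - 1 / 3)]
  have s2 : 17 / 5 * Y ^ 2 ≤ (13 - 54 * X ^ 2) * Y ^ 2 :=
    mul_le_mul_of_nonneg_right q2 (sq_nonneg Y)
  have s1 : -(51 / 10) * Y ≤ (12 - 30 * X - 60 * X ^ 3) * Y := mul_le_mul_of_nonneg_right q1 hY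
  nlinarith [sq_nonneg (Y ^ 2 - 6 * X * Y + 1 / 2), sq_nonneg (Y - 3 / 4)]

lemma H2_pos {X Y : ℝ} (h0 : 0 ≤ X) (h1 : X ≤ 21 / 50) (hY : 0 ≤ Y) :
    0 < H 39 14 14 2 X Y := by
  have e : H 39 14 14 2 X Y = 5 * (Y ^ 2 - (6 * X + 4 / 5) * Y + 2) ^ 2 +
      ((94 / 5 + 8 * X - 54 * X ^ 2) * Y ^ 2 + (-12 - 20 * X - 56 * X ^ 2 - 60 * X ^ 3) * Y +
        (19 + 28 * X + 42 * X ^ 2 + 8 * X ^ 3 + 5 * X ^ 4)) := by
    unfold H; ring
  rw [e]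
  have q2 : 63 / 5 ≤ 94 / 5 + 8 * X - 54 * X ^ 2 := by nlinarith
  have q1 : -12 - 271 / 5 * X ≤ -12 - 20 * X - 56 * X ^ 2 - 60 * X ^ 3 := by
    have a1 : X ^ 2 ≤ 21 / 50 * X := by nlinarith
    have a2 : X ^ 3 ≤ 21 / 50 * (21 / 50 * X) := by nlinarith
    nlinarith
  have q0 : 19 + 28 * X ≤ 19 + 28 * X + 42 * X ^ 2 + 8 * X ^ 3 + 5 * X ^ 4 := by
    have : 0 ≤ 42 * X ^ 2 + 8 * X ^ 3 + 5 * X ^ 4 := by positivity
    linarith
  have s2 : 63 / 5 * Y ^ 2 ≤ (94 / 5 + 8 * X - 54 * X ^ 2) * Y ^ 2 :=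
    mul_le_mul_of_nonneg_right q2 (sq_nonneg Y)
  have s1 : (-12 - 271 / 5 * X) * Y ≤ (-12 - 20 * X - 56 * X ^ 2 - 60 * X ^ 3) * Y :=
    mul_le_mul_of_nonneg_right q1 hY
  have key : 0 < 63 / 5 * Y ^ 2 + (-12 - 271 / 5 * X) * Y + (19 + 28 * X) := by
    have e2 : 63 / 5 * Y ^ 2 + (-12 - 271 / 5 * X) * Y + (19 + 28 * X) =
        63 / 5 * (Y - (12 + 271 / 5 * X) * (5 / 126)) ^ 2 +
        (19 + 28 * X - (12 + 271 / 5 * X) ^ 2 * (5 / 252)) := by ring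
    rw [e2]
    have : 0 < 19 + 28 * X - (12 + 271 / 5 * X) ^ 2 * (5 / 252) := by nlinarith
    have := sq_nonneg (Y - (12 + 271 / 5 * X) * (5 / 126))
    linarith
  have := sq_nonneg (Y ^ 2 - (6 * X + 4 / 5) * Y + 2)
  linarith

lemma H3_pos {X Y : ℝ} (h0 : 0 ≤ X) (h1 : X ≤ 21 / 50) (hY : 0 ≤ Y) :
    0 < H 99 (-69) 22 3 X Y := by
  have e : H 99 (-69) 22 3 X Y = 5 * (Y ^ 2 - (6 * X + 6 / 5) * Y) ^ 2 +
      ((294 / 5 + 12 * X - 54 * X ^ 2) * Y ^ 2 + (138 - 220 * X - 84 * X ^ 2 - 60 * X ^ 3) * Y +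
        (99 - 138 * X + 66 * X ^ 2 + 12 * X ^ 3 + 5 * X ^ 4)) := by
    unfold H; ring
  rw [e]
  have q2 : 0 ≤ 294 / 5 + 12 * X - 54 * X ^ 2 := by nlinarith
  have q1 : 0 ≤ 138 - 220 * X - 84 * X ^ 2 - 60 * X ^ 3 := by
    have a1 : X ^ 2 ≤ 21 / 50 * X := by nlinarith
    have a2 : X ^ 3 ≤ 21 / 50 * (21 / 50 * X) := by nlinarith
    nlinarith
  have q0 : 0 < 99 - 138 * X + 66 * X ^ 2 + 12 * X ^ 3 + 5 * X ^ 4 := by
    have : 0 ≤ 66 * X ^ 2 + 12 * X ^ 3 + 5 * X ^ 4 := by positivity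
    nlinarith
  have s2 := mul_nonneg q2 (sq_nonneg Y)
  have s1 := mul_nonneg q1 hY
  have := sq_nonneg (Y ^ 2 - (6 * X + 6 / 5) * Y)
  linarith

/-! ### signs on the real line -/

/-- the three real polynomials -/
def f1 (w : ℝ) : ℝ := w ^ 5 + 6 * w ^ 3 - 6 * w ^ 2 + 7 * w
def f2 (w : ℝ) : ℝ := w ^ 5 + 2 * w ^ 4 + 14 * w ^ 3 + 14 * w ^ 2 + 39 * w
def f3 (w : ℝ) : ℝ := w ^ 5 + 3 * w ^ 4 + 22 * w ^ 3 - 69 * w ^ 2 + 99 * w - 31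

lemma f1_eq (w : ℝ) : f1 w = w * ((w ^ 2) ^ 2 + 6 * (w - 1 / 2) ^ 2 + 11 / 2) := by
  unfold f1; ring

lemma f2_eq (w : ℝ) : f2 w = w * ((w ^ 2 + w) ^ 2 + 13 * (w + 7 / 13) ^ 2 + 458 / 13) := by
  unfold f2; ring

lemma f1_neg {w : ℝ} (h : w < 0) : f1 w < 0 := by
  rw [f1_eq]; exact mul_neg_of_neg_of_pos h (by positivity)

lemma f1_pos {w : ℝ} (h : 0 < w) : 0 < f1 w := by
  rw [f1_eq]; positivity

lemma f2_neg {w : ℝ} (h : w < 0) : f2 w < 0 := by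
  rw [f2_eq]; exact mul_neg_of_neg_of_pos h (by positivity)

lemma f2_pos {w : ℝ} (h : 0 < w) : 0 < f2 w := by
  rw [f2_eq]; positivity

lemma f3_neg {w : ℝ} (h : w ≤ 0) : f3 w < 0 := by
  have e : f3 w = w * ((w ^ 2 + 3 / 2 * w) ^ 2 + 79 / 4 * (w - 138 / 79) ^ 2 + 3060 / 79) - 31 := by
    unfold f3; ring
  rw [e]
  have : w * ((w ^ 2 + 3 / 2 * w) ^ 2 + 79 / 4 * (w - 138 / 79) ^ 2 + 3060 / 79) ≤ 0 :=
    mul_nonpos_of_nonpos_of_nonneg h (by positivity)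
  linarith

lemma f3_pos {w : ℝ} (h : 21 / 50 < w) : 0 < f3 w := by
  obtain ⟨v, hv⟩ : ∃ v : ℝ, v = w - 21 / 50 := ⟨_, rfl⟩
  have hv0 : 0 < v := by rw [hv]; linarith
  have hw : w = v + 21 / 50 := by rw [hv]; ring
  rw [hw]
  unfold f3
  have h2 : (v + 21 / 50) ^ 5 + 3 * (v + 21 / 50) ^ 4 + 22 * (v + 21 / 50) ^ 3
      - 69 * (v + 21 / 50) ^ 2 + 99 * (v + 21 / 50) - 31 =
      v ^ 5 + 51 / 10 * v ^ 4 + 14401 / 500 * v ^ 3 + (22 * 3 * (21 / 50) + 3 * 6 * (21 / 50) ^ 2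
        + 10 * (21 / 50) ^ 3 - 69) * v ^ 2 + (5 * (21 / 50) ^ 4 + 12 * (21 / 50) ^ 3
        + 66 * (21 / 50) ^ 2 - 138 * (21 / 50) + 99) * v +
        ((21 / 50) ^ 5 + 3 * (21 / 50) ^ 4 + 22 * (21 / 50) ^ 3 - 69 * (21 / 50) ^ 2
          + 99 * (21 / 50) - 31)
      + (10 * (21 / 50) ^ 2 + 12 * (21 / 50) + 22 - 14401 / 500) * v ^ 3 := by
    ring
  rw [h2]
  norm_num
  nlinarith [pow_pos hv0 5, pow_pos hv0 4, pow_pos hv0 3, pow_pos hv0 2, sq_nonneg (v - 1),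
    mul_pos hv0 hv0, mul_nonneg hv0.le (sq_nonneg (v - 1))]

lemma comb_neg {a b t : ℝ} (ha : a < 0) (hb : b < 0) (h0 : 0 ≤ t) (h1 : t ≤ 1) :
    (1 - t) * a + t * b < 0 := by
  have h : (1 - t) * a + t * b ≤ max a b := by
    have e : max a b = (1 - t) * max a b + t * max a b := by ring
    rw [e]
    exact add_le_add (mul_le_mul_of_nonneg_left (le_max_left _ _) (by linarith))
      (mul_le_mul_of_nonneg_left (le_max_right _ _) h0)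
  exact lt_of_le_of_lt h (max_lt ha hb)

lemma comb_pos {a b t : ℝ} (ha : 0 < a) (hb : 0 < b) (h0 : 0 ≤ t) (h1 : t ≤ 1) :
    0 < (1 - t) * a + t * b := by
  have := comb_neg (neg_neg_of_pos ha) (neg_neg_of_pos hb) h0 h1
  linarith

/-! ### the three edges -/

theorem edge12 {t : ℝ} (h0 : 0 ≤ t) (h1 : t ≤ 1) :
    Mono (fun z => P 0 (7 + 32 * t) (-6 + 20 * t) (6 + 8 * t) (2 * t) (z ^ 2)) := by
  have hPr : ∀ w, Pr 0 (7 + 32 * t) (-6 + 20 * t) (6 + 8 * t) (2 * t) w =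
      (1 - t) * f1 w + t * f2 w := by intro w; unfold Pr f1 f2; ring
  apply mono_of (R := 0)
  · intro w hw
    rw [hPr]
    exact comb_neg (f1_neg hw) (f2_neg hw) h0 h1
  · intro w hw
    rw [hPr]
    exact comb_pos (f1_pos hw) (f2_pos hw) h0 h1
  · intro X Y hX hX1 hY
    have e : H (7 + 32 * t) (-6 + 20 * t) (6 + 8 * t) (2 * t) X Y =
        (1 - t) * H 7 (-6) 6 0 X Y + t * H 39 14 14 2 X Y := by unfold H; ring
    rw [e]
    exact comb_pos (H1_pos hX (by linarith) hY) (H2_pos hX (by linarith) hY) h0 h1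
  · intro r hr0 hr1 _
    have hr : r = 0 := le_antisymm hr1 hr0
    subst hr
    obtain ⟨s, hs⟩ : ∃ s : ℝ, s = 1 - t := ⟨_, rfl⟩
    have hs0 : 0 ≤ s := by rw [hs]; linarith
    constructor
    · nlinarith
    · have e : (4 * (6 + 8 * t + 0 * (2 * t + 0)) - (2 * t + 0) ^ 2) ^ 2 -
          64 * (7 + 32 * t + 0 * (-6 + 20 * t + 0 * (6 + 8 * t + 0 * (2 * t + 0)))) =
          10 + (118 * s ^ 4 + (0 - 10) * 4 * t * s ^ 3 + (32 / 3 - 10) * 6 * t ^ 2 * s ^ 2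
          + 86 * 4 * t ^ 3 * s + 198 * t ^ 4) := by
        rw [hs]; ring
      have hnn : 0 < 10 + (118 * s ^ 4 + (0 - 10) * 4 * t * s ^ 3
          + (32 / 3 - 10) * 6 * t ^ 2 * s ^ 2 + 86 * 4 * t ^ 3 * s + 198 * t ^ 4) := by
        have e2 : 10 + (118 * s ^ 4 + (0 - 10) * 4 * t * s ^ 3
          + (32 / 3 - 10) * 6 * t ^ 2 * s ^ 2 + 86 * 4 * t ^ 3 * s + 198 * t ^ 4) =
          128 * s ^ 4 + 64 * t ^ 2 * s ^ 2 + 384 * t ^ 3 * s + 208 * t ^ 4 := by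
          rw [hs]; ring
        rw [e2]
        rcases eq_or_lt_of_le h0 with ht | ht
        · rw [← ht] at hs ⊢
          rw [hs]; norm_num
        · positivity
      linarith

/-- the algebra behind the edges 13 and 23 -/
lemma from_scaled {a c3 c2 c0 N3 N2 N0 P1 W : ℝ} (ha : 0 < a) (h3 : a * c3 = N3)
    (h2 : a * c2 = N2) (h0 : a * c0 = N0) (hP : P1 = 4 * a * N2 - N3 ^ 2)
    (hW : W = P1 ^ 2 - 64 * a ^ 3 * N0) (hP1 : 0 < P1) (hW1 : 0 < W) :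
    0 < 4 * c2 - c3 ^ 2 ∧ 64 * c0 < (4 * c2 - c3 ^ 2) ^ 2 := by
  have e1 : P1 = a ^ 2 * (4 * c2 - c3 ^ 2) := by rw [hP, ← h3, ← h2]; ring
  have e2 : W = a ^ 4 * ((4 * c2 - c3 ^ 2) ^ 2 - 64 * c0) := by rw [hW, e1, ← h0]; ring
  constructor
  · rw [e1] at hP1
    exact (pos_iff_pos_of_mul_pos hP1).1 (by positivity)
  · rw [e2] at hW1
    have := (pos_iff_pos_of_mul_pos hW1).1 (by positivity)
    linarith

theorem edge13 {t : ℝ} (h0 : 0 ≤ t) (h1 : t ≤ 1) :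
    Mono (fun z => P (-31 * t) (7 + 92 * t) (-6 - 63 * t) (6 + 16 * t) (3 * t) (z ^ 2)) := by
  have hPr : ∀ w, Pr (-31 * t) (7 + 92 * t) (-6 - 63 * t) (6 + 16 * t) (3 * t) w =
      (1 - t) * f1 w + t * f3 w := by intro w; unfold Pr f1 f3; ring
  apply mono_of (R := 21 / 50)
  · intro w hw
    rw [hPr]
    exact comb_neg (f1_neg hw) (f3_neg hw.le) h0 h1
  · intro w hw
    rw [hPr]
    exact comb_pos (f1_pos (by linarith)) (f3_pos hw) h0 h1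
  · intro X Y hX hX1 hY
    have e : H (7 + 92 * t) (-6 - 63 * t) (6 + 16 * t) (3 * t) X Y =
        (1 - t) * H 7 (-6) 6 0 X Y + t * H 99 (-69) 22 3 X Y := by unfold H; ring
    rw [e]
    exact comb_pos (H1_pos hX hX1 hY) (H3_pos hX hX1 hY) h0 h1
  · intro r hr0 hr1 hroot
    rw [hPr] at hroot
    unfold f1 f3 at hroot
    have hT : t * (31 - 92 * r + 63 * r ^ 2 - 16 * r ^ 3 - 3 * r ^ 4) =
        r ^ 5 + 6 * r ^ 3 - 6 * r ^ 2 + 7 * r := by linear_combination -hroot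
    have k3 : (31 - 92 * r + 63 * r ^ 2 - 16 * r ^ 3 - 3 * r ^ 4) * (3 * t + r) =
        52 * r - 110 * r ^ 2 + 81 * r ^ 3 - 16 * r ^ 4 := by linear_combination 3 * hT
    have k2 : (31 - 92 * r + 63 * r ^ 2 - 16 * r ^ 3 - 3 * r ^ 4) *
        (6 + 16 * t + r * (3 * t + r)) =
        186 - 440 * r + 334 * r ^ 2 - 110 * r ^ 3 + 63 * r ^ 4 := by
      linear_combination 16 * hT + r * k3
    have k1 : (31 - 92 * r + 63 * r ^ 2 - 16 * r ^ 3 - 3 * r ^ 4) *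
        (-6 - 63 * t + r * (6 + 16 * t + r * (3 * t + r))) =
        -186 + 297 * r - 440 * r ^ 2 + 52 * r ^ 3 - 92 * r ^ 4 := by
      linear_combination -63 * hT + r * k2
    have k0 : (31 - 92 * r + 63 * r ^ 2 - 16 * r ^ 3 - 3 * r ^ 4) *
        (7 + 92 * t + r * (-6 - 63 * t + r * (6 + 16 * t + r * (3 * t + r)))) =
        217 - 186 * r + 186 * r ^ 2 + 31 * r ^ 4 := by
      linear_combination 92 * hT + r * k1
    exact from_scaled (a13 hr0 hr1) k3 k2 k0 (by ring) (by ring) (P13 hr0 hr1) (W13 hr0 hr1)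

theorem edge23 {t : ℝ} (h0 : 0 ≤ t) (h1 : t ≤ 1) :
    Mono (fun z => P (-31 * t) (39 + 60 * t) (14 - 83 * t) (14 + 8 * t) (2 + t) (z ^ 2)) := by
  have hPr : ∀ w, Pr (-31 * t) (39 + 60 * t) (14 - 83 * t) (14 + 8 * t) (2 + t) w =
      (1 - t) * f2 w + t * f3 w := by intro w; unfold Pr f2 f3; ring
  apply mono_of (R := 21 / 50)
  · intro w hw
    rw [hPr]
    exact comb_neg (f2_neg hw) (f3_neg hw.le) h0 h1
  · intro w hw
    rw [hPr]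
    exact comb_pos (f2_pos (by linarith)) (f3_pos hw) h0 h1
  · intro X Y hX hX1 hY
    have e : H (39 + 60 * t) (14 - 83 * t) (14 + 8 * t) (2 + t) X Y =
        (1 - t) * H 39 14 14 2 X Y + t * H 99 (-69) 22 3 X Y := by unfold H; ring
    rw [e]
    exact comb_pos (H2_pos hX hX1 hY) (H3_pos hX hX1 hY) h0 h1
  · intro r hr0 hr1 hroot
    rw [hPr] at hroot
    unfold f2 f3 at hroot
    have hT : t * (31 - 60 * r + 83 * r ^ 2 - 8 * r ^ 3 - 1 * r ^ 4) =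
        r ^ 5 + 2 * r ^ 4 + 14 * r ^ 3 + 14 * r ^ 2 + 39 * r := by linear_combination -hroot
    have k3 : (31 - 60 * r + 83 * r ^ 2 - 8 * r ^ 3 - 1 * r ^ 4) * (2 + t + r) =
        62 - 50 * r + 120 * r ^ 2 + 81 * r ^ 3 - 8 * r ^ 4 := by linear_combination hT
    have k2 : (31 - 60 * r + 83 * r ^ 2 - 8 * r ^ 3 - 1 * r ^ 4) *
        (14 + 8 * t + r * (2 + t + r)) =
        434 - 466 * r + 1224 * r ^ 2 + 120 * r ^ 3 + 83 * r ^ 4 := by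
      linear_combination 8 * hT + r * k3
    have k1 : (31 - 60 * r + 83 * r ^ 2 - 8 * r ^ 3 - 1 * r ^ 4) *
        (14 - 83 * t + r * (14 + 8 * t + r * (2 + t + r))) =
        434 - 3643 * r - 466 * r ^ 2 - 50 * r ^ 3 - 60 * r ^ 4 := by
      linear_combination -83 * hT + r * k2
    have k0 : (31 - 60 * r + 83 * r ^ 2 - 8 * r ^ 3 - 1 * r ^ 4) *
        (39 + 60 * t + r * (14 - 83 * t + r * (14 + 8 * t + r * (2 + t + r)))) =
        1209 + 434 * r + 434 * r ^ 2 + 62 * r ^ 3 + 31 * r ^ 4 := by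
      linear_combination 60 * hT + r * k1
    exact from_scaled (a23 hr0 hr1) k3 k2 k0 (by ring) (by ring) (P23 hr0 hr1) (W23 hr0 hr1)

end Pool.Agent.X216.MZ
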